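import Mathlib
import Pool.Agent.H94.CC.Final

/-!
The asymptotics of the clique chromatic number of `G(n,p)` for
`n^(-1/3+ε) ≪ p ≪ n^(-ε)`.
-/

open Filter Topology Asymptotics
open Pool.Agent.H94.CC

namespace Pool.Agent.Results.MP_b09bc5_pr.Asymptotics

/-- Let `n^(-1/3+ε) ≪ p ≪ n^(-ε)` and
`f(n,p) = (1/p) * sup_{s ≥ 2} (log (n p^(1 + s/2)) - n p^s / (s - 1))`.
Then with probability tending to one `|χ_c(G(n,p)) - f(n,p)| ≤ η f(n,p)`, for every `η > 0`. -/
theorem result (ε : ℝ) (hε : 0 < ε) (p : ℕ → unitInterval)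
    (hlow : (fun n : ℕ => (n : ℝ) ^ (-(1 / 3 : ℝ) + ε)) =o[atTop] (fun n : ℕ => (p n : ℝ)))
    (hup : (fun n : ℕ => (p n : ℝ)) =o[atTop] (fun n : ℕ => (n : ℝ) ^ (-ε)))
    (η : ℝ) (hη : 0 < η) :
    Tendsto (fun n : ℕ => SimpleGraph.binomialRandom (Fin n) (p n)
      {G : SimpleGraph (Fin n) |
        |(cliqueChromaticNumber G : ℝ) - cliqueF n (p n)| ≤ η * cliqueF n (p n)})
      atTop (𝓝 1) := by
  classical
  have hlow' : ∀ᶠ n : ℕ in atTop, (n : ℝ) ^ (-(1 / 3) + ε) ≤ (p n : ℝ) := by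
    have h := hlow.bound (c := 1) one_pos
    filter_upwards [h] with n hn
    rw [one_mul, Real.norm_of_nonneg (by positivity), Real.norm_of_nonneg (p n).2.1] at hn
    exact hn
  have hup' : ∀ᶠ n : ℕ in atTop, (p n : ℝ) ≤ (n : ℝ) ^ (-ε) := by
    have h := hup.bound (c := 1) one_pos
    filter_upwards [h] with n hn
    rw [one_mul, Real.norm_of_nonneg (p n).2.1, Real.norm_of_nonneg (by positivity)] at hn
    exact hn
  have hreal : Tendsto (fun n : ℕ => (SimpleGraph.binomialRandom (Fin n) (p n)).real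
      {G : SimpleGraph (Fin n) |
        |(cliqueChromaticNumber G : ℝ) - cliqueF n (p n)| ≤ η * cliqueF n (p n)})
      atTop (𝓝 1) := by
    rw [tendsto_iff_ultrafilter]
    intro u hu
    obtain ⟨x, s, lam, D⟩ := exists_data u hu (fun n => (p n : ℝ)) ε hε hlow' hup'
    have h := D.main hη
    refine h.congr fun n => ?_
    rw [binomialRandom_real]
    rfl
  have h1 := ENNReal.tendsto_ofReal hreal
  rw [ENNReal.ofReal_one] at h1
  refine h1.congr fun n => ?_
  rw [MeasureTheory.ofReal_measureReal]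

end Pool.Agent.Results.MP_b09bc5_pr.Asymptotics
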